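import Mathlib

/-!
Hexagon-free subgraphs of the hypercube whose edges are chosen by the numbers of ones to the left
and to the right of the flipped coordinate have density at most `1/3 + o(1)`.
-/

namespace Pool.Agent.Results.MP_b9b223_co.CountingRules

open Finset

/-- The number of ones of `x` strictly to the left of coordinate `i`. -/
def onesLeft {n : ℕ} (x : Fin n → Bool) (i : Fin n) : ℕ :=
  (univ.filter (fun j : Fin n => j < i ∧ x j = true)).card

/-- The number of ones of `x` strictly to the right of coordinate `i`. -/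
def onesRight {n : ℕ} (x : Fin n → Bool) (i : Fin n) : ℕ :=
  (univ.filter (fun j : Fin n => i < j ∧ x j = true)).card

theorem onesLeft_congr {n : ℕ} {x y : Fin n → Bool} {i : Fin n} (h : ∀ j, j ≠ i → x j = y j) :
    onesLeft x i = onesLeft y i := by
  unfold onesLeft
  congr 1
  ext j
  simp only [mem_filter, mem_univ, true_and]
  constructor
  · rintro ⟨h1, h2⟩; exact ⟨h1, by rw [← h j h1.ne]; exact h2⟩
  · rintro ⟨h1, h2⟩; exact ⟨h1, by rw [h j h1.ne]; exact h2⟩

theorem onesRight_congr {n : ℕ} {x y : Fin n → Bool} {i : Fin n} (h : ∀ j, j ≠ i → x j = y j) :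
    onesRight x i = onesRight y i := by
  unfold onesRight
  congr 1
  ext j
  simp only [mem_filter, mem_univ, true_and]
  constructor
  · rintro ⟨h1, h2⟩; exact ⟨h1, by rw [← h j h1.ne']; exact h2⟩
  · rintro ⟨h1, h2⟩; exact ⟨h1, by rw [h j h1.ne']; exact h2⟩

/-- The subgraph of the hypercube `Q_n` that keeps the edge flipping coordinate `i` exactly when
the pair (number of ones to the left of `i`, number of ones to the right of `i`) is in `K`. -/
def ruleGraph (K : Set (ℕ × ℕ)) (n : ℕ) : SimpleGraph (Fin n → Bool) where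
  Adj x y := ∃ i, x i ≠ y i ∧ (∀ j, j ≠ i → x j = y j) ∧ (onesLeft x i, onesRight x i) ∈ K
  symm := ⟨by
    rintro x y ⟨i, h1, h2, h3⟩
    refine ⟨i, h1.symm, fun j hj => (h2 j hj).symm, ?_⟩
    rw [← onesLeft_congr h2, ← onesRight_congr h2]
    exact h3⟩
  loopless := ⟨by
    rintro x ⟨i, h1, _⟩
    exact h1 rfl⟩

/-! ### Counting edges -/

/-- number of `u < t` with `(u, t-1-u) ∈ K` -/
noncomputable def β (K : Set (ℕ × ℕ)) (t : ℕ) : ℕ := by
  classical
  exact ((range t).filter (fun u => (u, t - 1 - u) ∈ K)).card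

theorem edge_count (K : Set (ℕ × ℕ)) (n : ℕ) :
    (ruleGraph K n).edgeSet.ncard ≤ ∑ t ∈ range (n + 1), n.choose t * β K t := by
  classical
  set P : Finset (Finset (Fin n) × Fin n) := univ.filter (fun q => q.2 ∈ q.1 ∧
    ((q.1.filter (fun j => j < q.2)).card, (q.1.filter (fun j => q.2 < j)).card) ∈ K) with hP
  let φ : Finset (Fin n) × Fin n → Sym2 (Fin n → Bool) := fun q =>
    s((fun p => decide (p ∈ q.1)), (fun p => decide (p ∈ q.1.erase q.2)))
  have key : ∀ x y : Fin n → Bool, ∀ i : Fin n, x i = true → y i = false →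
      (∀ j, j ≠ i → x j = y j) → (onesLeft x i, onesRight x i) ∈ K →
      s(x, y) ∈ φ '' (P : Set (Finset (Fin n) × Fin n)) := by
    intro x y i hx hy hxy hK
    refine ⟨(univ.filter (fun p => x p = true), i), ?_, ?_⟩
    · simp only [hP, coe_filter, mem_univ, true_and, Set.mem_ofPred_eq, mem_filter]
      refine ⟨hx, ?_⟩
      have e1 : ((univ.filter (fun p => x p = true)).filter (fun j => j < i)).card
          = onesLeft x i := by
        unfold onesLeft
        congr 1
        ext j
        simp only [mem_filter, mem_univ, true_and]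
        tauto
      have e2 : ((univ.filter (fun p => x p = true)).filter (fun j => i < j)).card
          = onesRight x i := by
        unfold onesRight
        congr 1
        ext j
        simp only [mem_filter, mem_univ, true_and]
        tauto
      rw [e1, e2]
      exact hK
    · have h1 : (fun p => decide (p ∈ univ.filter (fun p => x p = true))) = x := by
        funext p
        simp
      have h2 : (fun p => decide (p ∈ (univ.filter (fun p => x p = true)).erase i)) = y := by
        funext p
        by_cases hp : p = i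
        · subst hp
          simp [hy]
        · simp [hp, hxy p hp]
      simp only [φ]
      rw [h1, h2]
  have hsub : (ruleGraph K n).edgeSet ⊆ φ '' (P : Set (Finset (Fin n) × Fin n)) := by
    intro e
    induction e with
    | _ x y =>
      intro hadj
      rw [SimpleGraph.mem_edgeSet] at hadj
      obtain ⟨i, h1, h2, h3⟩ := hadj
      cases hx : x i with
      | true =>
        have hy : y i = false := by
          cases hy : y i
          · rfl
          · exact absurd (hx.trans hy.symm) h1
        exact key x y i hx hy h2 h3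
      | false =>
        have hy : y i = true := by
          cases hy : y i
          · exact absurd (hx.trans hy.symm) h1
          · rfl
        rw [Sym2.eq_swap]
        refine key y x i hy hx (fun j hj => (h2 j hj).symm) ?_
        rw [← onesLeft_congr h2, ← onesRight_congr h2]
        exact h3
  have h1 : (ruleGraph K n).edgeSet.ncard ≤ P.card := by
    calc (ruleGraph K n).edgeSet.ncard ≤ (φ '' (P : Set (Finset (Fin n) × Fin n))).ncard :=
          Set.ncard_le_ncard hsub ((Finset.finite_toSet P).image φ)
      _ ≤ (P : Set (Finset (Fin n) × Fin n)).ncard := Set.ncard_image_le (Finset.finite_toSet P)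
      _ = P.card := Set.ncard_coe_finset P
  have h2 : P.card = ∑ T : Finset (Fin n), (univ.filter (fun i : Fin n => i ∈ T ∧
      ((T.filter (fun j => j < i)).card, (T.filter (fun j => i < j)).card) ∈ K)).card := by
    rw [hP, Finset.card_filter, Fintype.sum_prod_type]
    refine Finset.sum_congr rfl fun T _ => ?_
    rw [Finset.card_filter]
  have h3 : ∀ T : Finset (Fin n), (univ.filter (fun i : Fin n => i ∈ T ∧
      ((T.filter (fun j => j < i)).card, (T.filter (fun j => i < j)).card) ∈ K)).card
      ≤ β K T.card := by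
    intro T
    unfold β
    refine Finset.card_le_card_of_injOn (fun i => (T.filter (fun j => j < i)).card) ?_ ?_
    · intro i hi
      simp only [coe_filter, mem_univ, true_and, Set.mem_ofPred_eq] at hi
      obtain ⟨hiT, hK⟩ := hi
      have hsplit : (T.filter (fun j => j < i)).card + (T.filter (fun j => i < j)).card + 1
          = T.card := by
        have hT : T = (T.filter (fun j => j < i)) ∪ ({i} ∪ (T.filter (fun j => i < j))) := by
          ext j
          simp only [mem_union, mem_filter, mem_singleton]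
          constructor
          · intro hj
            rcases lt_trichotomy j i with h | h | h
            · exact Or.inl ⟨hj, h⟩
            · exact Or.inr (Or.inl h)
            · exact Or.inr (Or.inr ⟨hj, h⟩)
          · rintro (h | h | h)
            · exact h.1
            · rw [h]; exact hiT
            · exact h.1
        have hd1 : Disjoint ({i} : Finset (Fin n)) (T.filter (fun j => i < j)) := by
          rw [Finset.disjoint_left]
          intro j hj hj'
          simp only [mem_singleton, mem_filter] at hj hj'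
          rw [hj] at hj'
          exact lt_irrefl _ hj'.2
        have hd2 : Disjoint (T.filter (fun j => j < i)) ({i} ∪ (T.filter (fun j => i < j))) := by
          rw [Finset.disjoint_left]
          intro j hj hj'
          simp only [mem_singleton, mem_filter, mem_union] at hj hj'
          rcases hj' with h | h
          · rw [h] at hj; exact lt_irrefl _ hj.2
          · exact lt_asymm hj.2 h.2
        have := congrArg Finset.card hT
        rw [Finset.card_union_of_disjoint hd2, Finset.card_union_of_disjoint hd1,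
          Finset.card_singleton] at this
        omega
      simp only [coe_filter, mem_range, Set.mem_ofPred_eq]
      refine ⟨by omega, ?_⟩
      have : T.card - 1 - (T.filter (fun j => j < i)).card = (T.filter (fun j => i < j)).card := by
        omega
      rw [this]
      exact hK
    · intro i hi i' hi' h
      simp only [coe_filter, mem_univ, true_and, Set.mem_ofPred_eq] at hi hi'
      simp only at h
      by_contra hne
      have aux : ∀ a b : Fin n, a ∈ T → a < b →
          (T.filter (fun j => j < a)).card < (T.filter (fun j => j < b)).card := by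
        intro a b ha hab
        apply Finset.card_lt_card
        rw [Finset.ssubset_iff_of_subset]
        · exact ⟨a, by simp [ha, hab], by simp⟩
        · intro j hj
          simp only [mem_filter] at hj ⊢
          exact ⟨hj.1, hj.2.trans hab⟩
      rcases lt_or_gt_of_ne hne with h' | h'
      · exact absurd h (aux i i' hi.1 h').ne
      · exact absurd h (aux i' i hi'.1 h').ne'
  calc (ruleGraph K n).edgeSet.ncard ≤ P.card := h1
    _ ≤ ∑ T : Finset (Fin n), β K T.card := by
        rw [h2]
        exact Finset.sum_le_sum fun T _ => h3 T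
    _ = ∑ t ∈ range (n + 1), n.choose t * β K t := by
        have := Finset.sum_powerset_apply_card (x := (univ : Finset (Fin n))) (fun t => β K t)
        simpa [Finset.card_univ] using this

/-! ### Configurations of vertices -/

/-- a labelled vertex: coordinates `i, j, k` carry the bits `e`, all other coordinates below `M`
are one. -/
def val (i j k M : ℕ) (e : Bool × Bool × Bool) (p : ℕ) : Bool :=
  if p = i then e.1 else if p = j then e.2.1 else if p = k then e.2.2 else decide (p < M)

theorem left_count {n : ℕ} (f : ℕ → Bool) (q : Fin n) :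
    onesLeft (fun p : Fin n => f p) q = Nat.count (fun p => f p = true) q := by
  unfold onesLeft
  rw [Finset.card_filter, Nat.count_eq_card_filter_range, Finset.card_filter]
  have h := Fin.sum_univ_eq_sum_range (fun p => if (p < (q : ℕ) ∧ f p = true) then 1 else 0) n
  have h' : ∑ i : Fin n, (if (i < q ∧ f i = true) then 1 else 0)
      = ∑ i : Fin n, (if ((i : ℕ) < (q : ℕ) ∧ f i = true) then 1 else 0) := by
    refine Finset.sum_congr rfl fun i _ => ?_
    simp only [Fin.lt_def]
  rw [h', h]
  have hsub : range (q : ℕ) ⊆ range n := Finset.range_subset_range.mpr q.2.le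
  rw [← Finset.sum_subset hsub]
  · refine Finset.sum_congr rfl fun p hp => ?_
    rw [mem_range] at hp
    simp [hp]
  · intro p _ hp
    rw [mem_range] at hp
    simp [hp]

theorem right_count {n : ℕ} (f : ℕ → Bool) (q : Fin n) :
    onesRight (fun p : Fin n => f p) q + Nat.count (fun p => f p = true) (q + 1)
      = Nat.count (fun p => f p = true) n := by
  unfold onesRight
  rw [Finset.card_filter, Nat.count_eq_card_filter_range, Nat.count_eq_card_filter_range,
    Finset.card_filter, Finset.card_filter]
  have h := Fin.sum_univ_eq_sum_range (fun p => if ((q : ℕ) < p ∧ f p = true) then 1 else 0) n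
  have h' : ∑ i : Fin n, (if (q < i ∧ f i = true) then 1 else 0)
      = ∑ i : Fin n, (if ((q : ℕ) < (i : ℕ) ∧ f i = true) then 1 else 0) := by
    refine Finset.sum_congr rfl fun i _ => ?_
    simp only [Fin.lt_def]
  rw [h', h]
  have hsub : range ((q : ℕ) + 1) ⊆ range n := Finset.range_subset_range.mpr q.2
  have h2 : ∑ p ∈ range ((q : ℕ) + 1), (if f p = true then 1 else 0)
      = ∑ p ∈ range n, (if (p ≤ (q : ℕ) ∧ f p = true) then 1 else 0) := by
    rw [← Finset.sum_subset hsub]
    · refine Finset.sum_congr rfl fun p hp => ?_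
      rw [mem_range] at hp
      have : p ≤ (q : ℕ) := by omega
      simp [this]
    · intro p _ hp
      rw [mem_range] at hp
      have : ¬ p ≤ (q : ℕ) := by omega
      simp [this]
  rw [h2, ← Finset.sum_add_distrib]
  refine Finset.sum_congr rfl fun p _ => ?_
  by_cases hf : f p = true
  · by_cases hq : (q : ℕ) < p
    · have : ¬ p ≤ (q : ℕ) := by omega
      simp [hf, hq, this]
    · have : p ≤ (q : ℕ) := by omega
      simp [hf, hq, this]
  · simp [hf]

theorem count_add_of_true {P : ℕ → Prop} [DecidablePred P] (q m : ℕ)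
    (h : ∀ p, q ≤ p → p < q + m → P p) : Nat.count P (q + m) = Nat.count P q + m := by
  induction m with
  | zero => rfl
  | succ m ih =>
    rw [← add_assoc, Nat.count_succ, ih (fun p h1 h2 => h p h1 (by omega)),
      if_pos (h (q + m) (by omega) (by omega))]
    ring

theorem count_add_of_false {P : ℕ → Prop} [DecidablePred P] (q m : ℕ)
    (h : ∀ p, q ≤ p → p < q + m → ¬ P p) : Nat.count P (q + m) = Nat.count P q := by
  induction m with
  | zero => rfl
  | succ m ih =>
    rw [← add_assoc, Nat.count_succ, ih (fun p h1 h2 => h p h1 (by omega)),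
      if_neg (h (q + m) (by omega) (by omega)), add_zero]

section counts

variable (a c d b : ℕ) (e : Bool × Bool × Bool)

/-- the function used below -/
def F (p : ℕ) : Bool := val a (a + 1 + c) (a + 2 + c + d) (a + 3 + c + d + b) e p

theorem F_true {p : ℕ} (h1 : p ≠ a) (h2 : p ≠ a + 1 + c) (h3 : p ≠ a + 2 + c + d)
    (h4 : p < a + 3 + c + d + b) : F a c d b e p = true := by
  unfold F val
  rw [if_neg h1, if_neg h2, if_neg h3]
  exact decide_eq_true h4

theorem F_false {p : ℕ} (h4 : a + 3 + c + d + b ≤ p) : ¬ F a c d b e p = true := by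
  unfold F val
  rw [if_neg (by omega), if_neg (by omega), if_neg (by omega)]
  simp only [decide_eq_true_eq]
  omega

theorem F_i : F a c d b e a = e.1 := by
  unfold F val; simp

theorem F_j : F a c d b e (a + 1 + c) = e.2.1 := by
  unfold F val
  rw [if_neg (by omega), if_pos rfl]

theorem F_k : F a c d b e (a + 2 + c + d) = e.2.2 := by
  unfold F val
  rw [if_neg (by omega), if_neg (by omega), if_pos rfl]

theorem cnt_i : Nat.count (fun p => F a c d b e p = true) a = a := by
  have := count_add_of_true (P := fun p => F a c d b e p = true) 0 a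
    (fun p _ h => F_true a c d b e (by omega) (by omega) (by omega) (by omega))
  simpa using this

theorem cnt_i1 : Nat.count (fun p => F a c d b e p = true) (a + 1) = a + e.1.toNat := by
  rw [Nat.count_succ, cnt_i, F_i]
  cases e.1 <;> simp

theorem cnt_j : Nat.count (fun p => F a c d b e p = true) (a + 1 + c) = a + e.1.toNat + c := by
  rw [count_add_of_true (P := fun p => F a c d b e p = true) (a + 1) c
    (fun p _ h => F_true a c d b e (by omega) (by omega) (by omega) (by omega)), cnt_i1]

theorem cnt_j1 : Nat.count (fun p => F a c d b e p = true) (a + 1 + c + 1)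
    = a + e.1.toNat + c + e.2.1.toNat := by
  rw [Nat.count_succ, cnt_j, F_j]
  cases e.2.1 <;> simp

theorem cnt_k : Nat.count (fun p => F a c d b e p = true) (a + 2 + c + d)
    = a + e.1.toNat + c + e.2.1.toNat + d := by
  have h : a + 2 + c + d = (a + 1 + c + 1) + d := by ring
  rw [h, count_add_of_true (P := fun p => F a c d b e p = true) (a + 1 + c + 1) d
    (fun p _ h => F_true a c d b e (by omega) (by omega) (by omega) (by omega)), cnt_j1]

theorem cnt_k1 : Nat.count (fun p => F a c d b e p = true) (a + 2 + c + d + 1)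
    = a + e.1.toNat + c + e.2.1.toNat + d + e.2.2.toNat := by
  rw [Nat.count_succ, cnt_k, F_k]
  cases e.2.2 <;> simp

theorem cnt_n {n : ℕ} (hn : a + 3 + c + d + b ≤ n) :
    Nat.count (fun p => F a c d b e p = true) n
    = a + e.1.toNat + c + e.2.1.toNat + d + e.2.2.toNat + b := by
  obtain ⟨m, rfl⟩ := Nat.exists_eq_add_of_le hn
  rw [count_add_of_false (P := fun p => F a c d b e p = true) (a + 3 + c + d + b) m
    (fun p h _ => F_false a c d b e h)]
  have h : a + 3 + c + d + b = (a + 2 + c + d + 1) + b := by ring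
  rw [h, count_add_of_true (P := fun p => F a c d b e p = true) (a + 2 + c + d + 1) b
    (fun p _ h => F_true a c d b e (by omega) (by omega) (by omega) (by omega)), cnt_k1]

end counts

/-- the vertex of `Q_n` -/
def V (n a c d b : ℕ) (e : Bool × Bool × Bool) : Fin n → Bool := fun p => F a c d b e p

theorem V_inj {n a c d b : ℕ} (hn : a + 3 + c + d + b ≤ n) :
    Function.Injective (V n a c d b) := by
  intro e e' h
  have h1 := congrFun h ⟨a, by omega⟩
  have h2 := congrFun h ⟨a + 1 + c, by omega⟩
  have h3 := congrFun h ⟨a + 2 + c + d, by omega⟩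
  simp only [V, F_i, F_j, F_k] at h1 h2 h3
  exact Prod.ext h1 (Prod.ext h2 h3)

theorem adjI {K : Set (ℕ × ℕ)} {n a c d b : ℕ} (hn : a + 3 + c + d + b ≤ n) (e2 e3 : Bool)
    (h : (a, c + d + b + e2.toNat + e3.toNat) ∈ K) :
    (ruleGraph K n).Adj (V n a c d b (false, e2, e3)) (V n a c d b (true, e2, e3)) := by
  refine ⟨⟨a, by omega⟩, ?_, ?_, ?_⟩
  · simp [V, F_i]
  · intro p hp
    have hp' : (p : ℕ) ≠ a := fun h' => hp (Fin.ext h')
    simp only [V, F, val, if_neg hp']
  · have h1 := left_count (n := n) (F a c d b (false, e2, e3)) ⟨a, by omega⟩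
    have h2 := right_count (n := n) (F a c d b (false, e2, e3)) ⟨a, by omega⟩
    simp only [cnt_i, cnt_i1, cnt_n a c d b _ hn] at h1 h2
    have h3 : onesLeft (V n a c d b (false, e2, e3)) ⟨a, by omega⟩ = a := h1
    have h4 : onesRight (V n a c d b (false, e2, e3)) ⟨a, by omega⟩
        = c + d + b + e2.toNat + e3.toNat := by
      change onesRight (fun p : Fin n => F a c d b (false, e2, e3) p) ⟨a, by omega⟩ = _
      omega
    rw [h3, h4]
    exact h

theorem adjJ {K : Set (ℕ × ℕ)} {n a c d b : ℕ} (hn : a + 3 + c + d + b ≤ n) (e1 e3 : Bool)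
    (h : (a + c + e1.toNat, d + b + e3.toNat) ∈ K) :
    (ruleGraph K n).Adj (V n a c d b (e1, false, e3)) (V n a c d b (e1, true, e3)) := by
  refine ⟨⟨a + 1 + c, by omega⟩, ?_, ?_, ?_⟩
  · simp [V, F_j]
  · intro p hp
    have hp' : (p : ℕ) ≠ a + 1 + c := fun h' => hp (Fin.ext h')
    simp only [V, F, val, if_neg hp']
  · have h1 := left_count (n := n) (F a c d b (e1, false, e3)) ⟨a + 1 + c, by omega⟩
    have h2 := right_count (n := n) (F a c d b (e1, false, e3)) ⟨a + 1 + c, by omega⟩
    simp only [cnt_j, cnt_j1, cnt_n a c d b _ hn] at h1 h2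
    have h3 : onesLeft (V n a c d b (e1, false, e3)) ⟨a + 1 + c, by omega⟩
        = a + c + e1.toNat := by
      change onesLeft (fun p : Fin n => F a c d b (e1, false, e3) p) ⟨a + 1 + c, by omega⟩ = _
      omega
    have h4 : onesRight (V n a c d b (e1, false, e3)) ⟨a + 1 + c, by omega⟩
        = d + b + e3.toNat := by
      change onesRight (fun p : Fin n => F a c d b (e1, false, e3) p) ⟨a + 1 + c, by omega⟩ = _
      omega
    rw [h3, h4]
    exact h

theorem adjK {K : Set (ℕ × ℕ)} {n a c d b : ℕ} (hn : a + 3 + c + d + b ≤ n) (e1 e2 : Bool)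
    (h : (a + c + d + e1.toNat + e2.toNat, b) ∈ K) :
    (ruleGraph K n).Adj (V n a c d b (e1, e2, false)) (V n a c d b (e1, e2, true)) := by
  refine ⟨⟨a + 2 + c + d, by omega⟩, ?_, ?_, ?_⟩
  · simp [V, F_k]
  · intro p hp
    have hp' : (p : ℕ) ≠ a + 2 + c + d := fun h' => hp (Fin.ext h')
    simp only [V, F, val, if_neg hp']
  · have h1 := left_count (n := n) (F a c d b (e1, e2, false)) ⟨a + 2 + c + d, by omega⟩
    have h2 := right_count (n := n) (F a c d b (e1, e2, false)) ⟨a + 2 + c + d, by omega⟩
    simp only [cnt_k, cnt_k1, cnt_n a c d b _ hn] at h1 h2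
    have h3 : onesLeft (V n a c d b (e1, e2, false)) ⟨a + 2 + c + d, by omega⟩
        = a + c + d + e1.toNat + e2.toNat := by
      change onesLeft (fun p : Fin n => F a c d b (e1, e2, false) p) ⟨a + 2 + c + d, by omega⟩ = _
      omega
    have h4 : onesRight (V n a c d b (e1, e2, false)) ⟨a + 2 + c + d, by omega⟩ = b := by
      change onesRight (fun p : Fin n => F a c d b (e1, e2, false) p) ⟨a + 2 + c + d, by omega⟩ = _
      omega
    rw [h3, h4]
    exact h

/-- the graph has no cycle of length six -/
def HexagonFree {W : Type} (H : SimpleGraph W) : Prop :=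
  ∀ (v : W) (p : H.Walk v v), p.IsCycle → p.length ≠ 6

theorem six {W : Type} {H : SimpleGraph W} (hfree : HexagonFree H)
    {X : Bool × Bool × Bool → W} (hX : Function.Injective X)
    (u0 u1 u2 u3 u4 u5 : Bool × Bool × Bool)
    (hd : [u0, u1, u2, u3, u4, u5].Nodup)
    (h01 : H.Adj (X u0) (X u1)) (h12 : H.Adj (X u1) (X u2)) (h23 : H.Adj (X u2) (X u3))
    (h34 : H.Adj (X u3) (X u4)) (h45 : H.Adj (X u4) (X u5)) (h50 : H.Adj (X u5) (X u0)) :
    False := by
  have hne : ∀ {p q : Bool × Bool × Bool}, p ≠ q → X p ≠ X q := fun h h' => h (hX h')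
  simp only [List.nodup_cons, List.mem_cons, List.not_mem_nil, or_false, not_or,
    not_false_eq_true, List.nodup_nil, and_true] at hd
  obtain ⟨⟨a1, a2, a3, a4, a5⟩, ⟨b1, b2, b3, b4⟩, ⟨c1, c2, c3⟩, ⟨d1, d2⟩, e1⟩ := hd
  let p : H.Walk (X u0) (X u0) :=
    SimpleGraph.Walk.cons h01 (SimpleGraph.Walk.cons h12 (SimpleGraph.Walk.cons h23
      (SimpleGraph.Walk.cons h34 (SimpleGraph.Walk.cons h45 (SimpleGraph.Walk.cons h50
        SimpleGraph.Walk.nil)))))
  refine hfree (X u0) p ?_ rfl
  simp only [p, SimpleGraph.Walk.cons_isCycle_iff, SimpleGraph.Walk.cons_isPath_iff,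
    SimpleGraph.Walk.support_cons, SimpleGraph.Walk.support_nil, List.mem_cons,
    List.not_mem_nil, or_false, not_or, SimpleGraph.Walk.edges_cons, SimpleGraph.Walk.edges_nil,
    Sym2.eq_iff, SimpleGraph.Walk.IsPath.nil, true_and]
  have := hne a1; have := hne a2; have := hne a3; have := hne a4; have := hne a5
  have := hne b1; have := hne b2; have := hne b3; have := hne b4
  have := hne c1; have := hne c2; have := hne c3
  have := hne d1; have := hne d2; have := hne e1
  have := (hne a1).symm; have := (hne a2).symm; have := (hne a3).symm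
  have := (hne a4).symm; have := (hne a5).symm
  tauto

/-! ### The constraints on `K` -/

/-- `{u ≤ s : (u, s-u) ∈ K}` -/
noncomputable def A (K : Set (ℕ × ℕ)) (s : ℕ) : Finset ℕ := by
  classical
  exact (range (s + 1)).filter (fun u => (u, s - u) ∈ K)

theorem mem_A {K : Set (ℕ × ℕ)} {s u : ℕ} : u ∈ A K s ↔ u ≤ s ∧ (u, s - u) ∈ K := by
  classical
  unfold A
  rw [mem_filter, mem_range, Nat.lt_succ_iff]

theorem beta_succ (K : Set (ℕ × ℕ)) (s : ℕ) : β K (s + 1) = (A K s).card := by
  unfold β A
  simp

theorem beta_le (K : Set (ℕ × ℕ)) (t : ℕ) : β K t ≤ t := by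
  classical
  unfold β
  exact (Finset.card_filter_le _ _).trans (card_range t).le

theorem C1 {K : Set (ℕ × ℕ)} {n s u : ℕ} (hfree : HexagonFree (ruleGraph K n)) (hs : s + 2 ≤ n)
    (h1 : u ∈ A K s) (h2 : u + 1 ∈ A K s) : False := by
  rw [mem_A] at h1 h2
  obtain ⟨h1a, h1b⟩ := h1
  obtain ⟨h2a, h2b⟩ := h2
  obtain ⟨b, rfl⟩ := Nat.exists_eq_add_of_le h2a
  have k1 : (u, b + 1) ∈ K := by convert h1b using 2; omega
  have k2 : (u + 1, b) ∈ K := by convert h2b using 2; omega
  have hn : u + 3 + 0 + 0 + b ≤ n := by omega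
  refine six hfree (V_inj hn) (true, false, false) (true, true, false) (false, true, false)
    (false, true, true) (false, false, true) (true, false, true) (by decide)
    (adjJ hn true false ?_) (adjI hn true false ?_).symm (adjK hn false true ?_)
    (adjJ hn false true ?_).symm (adjI hn false true ?_) (adjK hn true false ?_).symm
  · convert k2 using 2 <;> simp
  · convert k1 using 2 <;> simp
  · convert k2 using 2 <;> simp
  · convert k1 using 2 <;> simp
  · convert k1 using 2 <;> simp
  · convert k2 using 2 <;> simp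

theorem C2 {K : Set (ℕ × ℕ)} {n s a u : ℕ} (hfree : HexagonFree (ruleGraph K n)) (hs : s + 3 ≤ n)
    (h1 : a ∈ A K s) (h2 : a ∈ A K (s + 1)) (h3 : u ∈ A K (s + 1)) (hlt : a < u) : False := by
  rw [mem_A] at h1 h2 h3
  obtain ⟨h1a, h1b⟩ := h1
  obtain ⟨h2a, h2b⟩ := h2
  obtain ⟨h3a, h3b⟩ := h3
  obtain ⟨t, rfl⟩ := Nat.exists_eq_add_of_lt hlt
  obtain ⟨b, hb⟩ := Nat.exists_eq_add_of_le h3a
  have hsb : s = a + t + b := by omega
  subst hsb
  have k1 : (a, t + b) ∈ K := by convert h1b using 2; omega
  have k2 : (a, t + b + 1) ∈ K := by convert h2b using 2; omega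
  have k3 : (a + t + 1, b) ∈ K := by convert h3b using 2; omega
  have hn : a + 3 + 0 + t + b ≤ n := by omega
  refine six hfree (V_inj hn) (false, false, false) (false, true, false) (false, true, true)
    (false, false, true) (true, false, true) (true, false, false) (by decide)
    (adjJ hn false false ?_) (adjK hn false true ?_) (adjJ hn false true ?_).symm
    (adjI hn false true ?_) (adjK hn true false ?_).symm (adjI hn false false ?_).symm
  · convert k1 using 2 <;> simp
  · convert k3 using 2 <;> simp
  · convert k2 using 2 <;> simp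
  · convert k2 using 2 <;> simp
  · convert k3 using 2 <;> simp
  · convert k1 using 2 <;> simp

theorem C3 {K : Set (ℕ × ℕ)} {n s u u' : ℕ} (hfree : HexagonFree (ruleGraph K n)) (hs : s + 3 ≤ n)
    (h1 : u ∈ A K s) (h2 : u + 1 ∈ A K (s + 1)) (h3 : u' ∈ A K (s + 1)) (hle : u' ≤ u) :
    False := by
  rw [mem_A] at h1 h2 h3
  obtain ⟨h1a, h1b⟩ := h1
  obtain ⟨h2a, h2b⟩ := h2
  obtain ⟨h3a, h3b⟩ := h3
  obtain ⟨t, rfl⟩ := Nat.exists_eq_add_of_le hle
  obtain ⟨b, rfl⟩ := Nat.exists_eq_add_of_le h1a
  have k1 : (u' + t, b) ∈ K := by convert h1b using 2; omega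
  have k2 : (u' + t + 1, b) ∈ K := by convert h2b using 2; omega
  have k3 : (u', t + b + 1) ∈ K := by convert h3b using 2; omega
  have hn : u' + 3 + t + 0 + b ≤ n := by omega
  refine six hfree (V_inj hn) (false, false, false) (false, true, false) (true, true, false)
    (true, false, false) (true, false, true) (false, false, true) (by decide)
    (adjJ hn false false ?_) (adjI hn true false ?_) (adjJ hn true false ?_).symm
    (adjK hn true false ?_) (adjI hn false true ?_).symm (adjK hn false false ?_).symm
  · convert k1 using 2 <;> simp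
  · convert k3 using 2 <;> simp
  · convert k2 using 2 <;> simp
  · convert k2 using 2 <;> simp
  · convert k3 using 2 <;> simp
  · convert k1 using 2 <;> simp

theorem step {K : Set (ℕ × ℕ)} {n s : ℕ} (hfree : HexagonFree (ruleGraph K n)) (hs : s + 3 ≤ n) :
    2 * (A K s).card + (A K (s + 1)).card ≤ s + 4 := by
  classical
  set B : Finset ℕ := A K s ∪ (A K s).image (fun u => u + 1) with hB
  have hd : Disjoint (A K s) ((A K s).image (fun u => u + 1)) := by
    rw [Finset.disjoint_left]
    intro v hv hv'
    rw [mem_image] at hv'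
    obtain ⟨u, hu, rfl⟩ := hv'
    exact C1 hfree (by omega) hu hv
  have hBcard : B.card = 2 * (A K s).card := by
    rw [hB, Finset.card_union_of_disjoint hd,
      Finset.card_image_of_injective _ (fun x y h => by simpa using h)]
    ring
  have hBsub : B ⊆ range (s + 2) := by
    intro v hv
    rw [hB, mem_union, mem_image] at hv
    rw [mem_range]
    rcases hv with h | ⟨u, hu, rfl⟩
    · rw [mem_A] at h; omega
    · rw [mem_A] at hu; omega
  have h1 : (A K (s + 1) ∩ B).card + (A K (s + 1) \ B).card = (A K (s + 1)).card :=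
    Finset.card_inter_add_card_sdiff _ _
  have h2 : (A K (s + 1) \ B).card ≤ (s + 2) - B.card := by
    calc (A K (s + 1) \ B).card ≤ (range (s + 2) \ B).card := by
          apply Finset.card_le_card
          apply Finset.sdiff_subset_sdiff _ (le_refl _)
          intro v hv
          rw [mem_A] at hv
          rw [mem_range]
          omega
      _ = (s + 2) - B.card := by rw [Finset.card_sdiff_of_subset hBsub, card_range]
  have h3 : (A K (s + 1) ∩ A K s).card ≤ 1 := by
    rw [Finset.card_le_one]
    intro a ha b hb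
    rw [mem_inter] at ha hb
    by_contra hne
    rcases lt_or_gt_of_ne hne with h | h
    · exact C2 hfree hs ha.2 ha.1 hb.1 h
    · exact C2 hfree hs hb.2 hb.1 ha.1 h
  have h4 : (A K (s + 1) ∩ (A K s).image (fun u => u + 1)).card ≤ 1 := by
    rw [Finset.card_le_one]
    intro a ha b hb
    rw [mem_inter, mem_image] at ha hb
    obtain ⟨ha1, u, hu, rfl⟩ := ha
    obtain ⟨hb1, v, hv, rfl⟩ := hb
    by_contra hne
    rcases lt_or_gt_of_ne hne with h | h
    · exact C3 hfree hs hv hb1 ha1 (by omega)
    · exact C3 hfree hs hu ha1 hb1 (by omega)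
  have h5 : (A K (s + 1) ∩ B).card ≤ 2 := by
    calc (A K (s + 1) ∩ B).card
        = ((A K (s + 1) ∩ A K s) ∪ (A K (s + 1) ∩ (A K s).image (fun u => u + 1))).card := by
          rw [hB, Finset.inter_union_distrib_left]
      _ ≤ _ := (Finset.card_union_le _ _).trans (by omega)
  have h6 : B.card ≤ s + 2 := by
    calc B.card ≤ (range (s + 2)).card := Finset.card_le_card hBsub
      _ = s + 2 := card_range _
  omega

theorem choose_anti {n r : ℕ} (h : n / 2 ≤ r) : n.choose (r + 1) ≤ n.choose r := by
  have h1 := Nat.choose_succ_right_eq n r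
  have h2 : n - r ≤ r + 1 := by omega
  have h3 : n.choose (r + 1) * (r + 1) ≤ n.choose r * (r + 1) := by
    rw [h1]
    exact Nat.mul_le_mul_left _ h2
  exact Nat.le_of_mul_le_mul_right h3 (Nat.succ_pos r)

theorem variation (n N : ℕ) :
    ∑ t ∈ range N, (n.choose (t + 1) - n.choose t) ≤ n.choose (min N (n / 2)) := by
  induction N with
  | zero => simp
  | succ N ih =>
    rw [Finset.sum_range_succ]
    by_cases h : N < n / 2
    · have h1 : min N (n / 2) = N := by omega
      have h2 : min (N + 1) (n / 2) = N + 1 := by omega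
      rw [h1] at ih
      rw [h2]
      have h3 := Nat.choose_le_succ_of_lt_half_left h
      omega
    · have h1 : min N (n / 2) = n / 2 := by omega
      have h2 : min (N + 1) (n / 2) = n / 2 := by omega
      rw [h1] at ih
      rw [h2]
      have h3 := choose_anti (n := n) (r := N) (by omega)
      omega

theorem sum_id_choose (m : ℕ) :
    ∑ t ∈ range (m + 2), (m + 1).choose t * t = (m + 1) * 2 ^ m := by
  rw [Finset.sum_range_succ']
  simp only [mul_zero, add_zero]
  rw [← Nat.sum_range_choose, Finset.mul_sum]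
  refine Finset.sum_congr rfl fun t _ => ?_
  rw [Nat.add_one_mul_choose_eq]

theorem central_sq (m : ℕ) : (2 * m + 1) * (Nat.centralBinom m) ^ 2 ≤ 16 ^ m := by
  induction m with
  | zero => simp
  | succ m ih =>
    have h := Nat.succ_mul_centralBinom_succ m
    have h1 : (m + 1) ^ 2 * ((2 * (m + 1) + 1) * (Nat.centralBinom (m + 1)) ^ 2)
        = (2 * m + 3) * (2 * (2 * m + 1) * Nat.centralBinom m) ^ 2 := by
      rw [← h]; ring
    have h2 : (2 * m + 3) * (2 * (2 * m + 1) * Nat.centralBinom m) ^ 2
        = (4 * ((2 * m + 3) * (2 * m + 1))) * ((2 * m + 1) * (Nat.centralBinom m) ^ 2) := by ring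
    have h3 : (4 * ((2 * m + 3) * (2 * m + 1))) ≤ (m + 1) ^ 2 * 16 := by nlinarith
    have h4 : (m + 1) ^ 2 * ((2 * (m + 1) + 1) * (Nat.centralBinom (m + 1)) ^ 2)
        ≤ (m + 1) ^ 2 * 16 ^ (m + 1) := by
      rw [h1, h2]
      calc (4 * ((2 * m + 3) * (2 * m + 1))) * ((2 * m + 1) * (Nat.centralBinom m) ^ 2)
          ≤ ((m + 1) ^ 2 * 16) * 16 ^ m := Nat.mul_le_mul h3 ih
        _ = (m + 1) ^ 2 * 16 ^ (m + 1) := by ring
    exact Nat.le_of_mul_le_mul_left h4 (by positivity)

theorem middle_sq (n : ℕ) : n * (n.choose (n / 2)) ^ 2 ≤ 4 ^ n := by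
  rcases Nat.even_or_odd' n with ⟨m, rfl | rfl⟩
  · have h1 : 2 * m / 2 = m := by omega
    rw [h1, pow_mul]
    have h2 := central_sq m
    rw [Nat.centralBinom_eq_two_mul_choose] at h2
    calc 2 * m * ((2 * m).choose m) ^ 2 ≤ (2 * m + 1) * ((2 * m).choose m) ^ 2 :=
          Nat.mul_le_mul_right _ (by omega)
      _ ≤ 16 ^ m := h2
      _ = (4 ^ 2) ^ m := by norm_num
  · have h1 : (2 * m + 1) / 2 = m := by omega
    rw [h1]
    have h2 := central_sq m
    have h3 : (2 * m + 1).choose m ≤ 2 * Nat.centralBinom m := by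
      cases m with
      | zero => simp
      | succ k =>
        rw [Nat.choose_succ_succ, Nat.succ_eq_add_one]
        have e1 := Nat.choose_le_centralBinom k (k + 1)
        have e2 := Nat.choose_le_centralBinom (k + 1) (k + 1)
        omega
    calc (2 * m + 1) * ((2 * m + 1).choose m) ^ 2
        ≤ (2 * m + 1) * (2 * Nat.centralBinom m) ^ 2 :=
          Nat.mul_le_mul_left _ (Nat.pow_le_pow_left h3 2)
      _ = 4 * ((2 * m + 1) * (Nat.centralBinom m) ^ 2) := by ring
      _ ≤ 4 * 16 ^ m := Nat.mul_le_mul_left _ h2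
      _ = 4 ^ (2 * m + 1) := by rw [pow_succ, pow_mul]; norm_num; ring

theorem small_bound (m : ℕ) : (m + 1) * (m + 2) ≤ 6 * 2 ^ m := by
  induction m with
  | zero => norm_num
  | succ m ih =>
    rw [pow_succ]
    rcases Nat.eq_zero_or_pos m with h | h
    · subst h; norm_num
    · nlinarith

theorem main_nat {K : Set (ℕ × ℕ)} {m : ℕ} (hfree : HexagonFree (ruleGraph K (m + 1))) :
    3 * (ruleGraph K (m + 1)).edgeSet.ncard
      ≤ (m + 1) * 2 ^ m + 18 * 2 ^ m + (m + 1) * (m + 1).choose ((m + 1) / 2) := by
  set n := m + 1 with hn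
  have h0 := edge_count K n
  set S := ∑ t ∈ range (n + 1), n.choose t * β K t with hS
  -- pointwise inequality
  have hpt : ∀ t, t < m → 2 * β K t + β K (t + 1) ≤ t + 3 := by
    intro t ht
    cases t with
    | zero =>
      have h0 := beta_le K 0
      have h1 := beta_le K (0 + 1)
      omega
    | succ s =>
      rw [beta_succ, beta_succ]
      have := step (s := s) hfree (by omega)
      omega
  have hsum1 : ∑ t ∈ range (n + 1), n.choose t * (2 * β K t + β K (t + 1))
      ≤ ∑ t ∈ range (n + 1), n.choose t * (t + 3) + 2 * (m + 1) * (m + 2) := by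
    have e1 : n + 1 = m + 1 + 1 := by omega
    rw [e1, Finset.sum_range_succ, Finset.sum_range_succ, Finset.sum_range_succ,
      Finset.sum_range_succ]
    have e2 : ∑ t ∈ range m, n.choose t * (2 * β K t + β K (t + 1))
        ≤ ∑ t ∈ range m, n.choose t * (t + 3) :=
      Finset.sum_le_sum fun t ht => Nat.mul_le_mul_left _ (hpt t (mem_range.mp ht))
    have e3 : n.choose m = m + 1 := by
      rw [hn, Nat.choose_symm_of_eq_add (b := 1) (by omega)]
      simp
    have e4 : n.choose (m + 1) = 1 := by rw [hn]; exact Nat.choose_self _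
    rw [e3, e4]
    have f1 := beta_le K m
    have f2 := beta_le K (m + 1)
    have f3 := beta_le K (m + 1 + 1)
    have e5 : (m + 1) * (2 * β K m + β K (m + 1)) ≤ (m + 1) * (m + 3 + 2 * m) :=
      Nat.mul_le_mul_left _ (by omega)
    have e6 : 1 * (2 * β K (m + 1) + β K (m + 1 + 1)) ≤ (m + 1 + 3) + 2 * (m + 1) := by omega
    nlinarith
  have hvar := variation n n
  have hmin : min n (n / 2) = n / 2 := by omega
  rw [hmin] at hvar
  -- the shift
  have hshift : S ≤ ∑ t ∈ range (n + 1), n.choose t * β K (t + 1) + n * n.choose (n / 2) := by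
    have e1 : S = ∑ t ∈ range n, n.choose (t + 1) * β K (t + 1) := by
      rw [hS, Finset.sum_range_succ']
      have : β K 0 = 0 := Nat.le_zero.mp (beta_le K 0)
      rw [this]
      simp
    rw [e1]
    have e2 : ∑ t ∈ range n, n.choose (t + 1) * β K (t + 1)
        ≤ ∑ t ∈ range n, (n.choose t * β K (t + 1) + (n.choose (t + 1) - n.choose t) * n) := by
      refine Finset.sum_le_sum fun t ht => ?_
      have f1 := beta_le K (t + 1)
      have f2 : t + 1 ≤ n := by rw [mem_range] at ht; omega
      have f3 : n.choose (t + 1) ≤ n.choose t + (n.choose (t + 1) - n.choose t) := by omega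
      calc n.choose (t + 1) * β K (t + 1)
          ≤ (n.choose t + (n.choose (t + 1) - n.choose t)) * β K (t + 1) :=
            Nat.mul_le_mul_right _ f3
        _ = n.choose t * β K (t + 1) + (n.choose (t + 1) - n.choose t) * β K (t + 1) := by ring
        _ ≤ _ := Nat.add_le_add_left (Nat.mul_le_mul_left _ (f1.trans f2)) _
    rw [Finset.sum_add_distrib, ← Finset.sum_mul] at e2
    have e3 : ∑ t ∈ range n, n.choose t * β K (t + 1)
        ≤ ∑ t ∈ range (n + 1), n.choose t * β K (t + 1) :=
      Finset.sum_le_sum_of_subset (Finset.range_subset_range.mpr (Nat.le_succ n))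
    have e4 : (∑ t ∈ range n, (n.choose (t + 1) - n.choose t)) * n ≤ n.choose (n / 2) * n :=
      Nat.mul_le_mul_right _ hvar
    have e5 : n.choose (n / 2) * n = n * n.choose (n / 2) := mul_comm _ _
    omega
  have hsplit : ∑ t ∈ range (n + 1), n.choose t * (2 * β K t + β K (t + 1))
      = 2 * S + ∑ t ∈ range (n + 1), n.choose t * β K (t + 1) := by
    rw [hS, Finset.mul_sum, ← Finset.sum_add_distrib]
    refine Finset.sum_congr rfl fun t _ => ?_
    ring
  have hright : ∑ t ∈ range (n + 1), n.choose t * (t + 3) = (m + 1) * 2 ^ m + 3 * 2 ^ (m + 1) := by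
    have e1 : ∑ t ∈ range (n + 1), n.choose t * (t + 3)
        = ∑ t ∈ range (n + 1), n.choose t * t + 3 * ∑ t ∈ range (n + 1), n.choose t := by
      rw [Finset.mul_sum, ← Finset.sum_add_distrib]
      refine Finset.sum_congr rfl fun t _ => ?_
      ring
    rw [e1, Nat.sum_range_choose, hn, sum_id_choose]
  have hsmall := small_bound m
  have hpow : (2 : ℕ) ^ (m + 1) = 2 * 2 ^ m := by ring
  have h7 : 2 * (m + 1) * (m + 2) = 2 * ((m + 1) * (m + 2)) := by ring
  have h8 : (m + 1) * 2 ^ m = n * 2 ^ m := rfl
  rw [hright, hpow, hsplit, h7] at hsum1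
  omega

theorem result :
    ∀ (n : ℕ) (K : Set (ℕ × ℕ)), 1 ≤ n → HexagonFree (ruleGraph K n) →
      ((ruleGraph K n).edgeSet.ncard : ℝ)
        ≤ (1 / 3 + 7 / Real.sqrt n) * ((n : ℝ) * (2 : ℝ) ^ (n - 1)) := by
  intro n K hn hfree
  obtain ⟨m, rfl⟩ := Nat.exists_eq_add_of_le hn
  rw [add_comm 1 m] at hfree ⊢
  have h1 := main_nat hfree
  have h2 := middle_sq (m + 1)
  set C := (m + 1).choose ((m + 1) / 2) with hC
  set E := (ruleGraph K (m + 1)).edgeSet.ncard with hE
  have h1' : 3 * (E : ℝ) ≤ ((m : ℝ) + 1) * 2 ^ m + 18 * 2 ^ m + ((m : ℝ) + 1) * C := by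
    exact_mod_cast h1
  have h2' : ((m : ℝ) + 1) * (C : ℝ) ^ 2 ≤ 4 ^ (m + 1) := by exact_mod_cast h2
  have hsub : m + 1 - 1 = m := by omega
  rw [hsub]
  push_cast
  set r := Real.sqrt ((m : ℝ) + 1) with hr
  have hm0 : (0 : ℝ) ≤ m := Nat.cast_nonneg m
  have hr2 : r ^ 2 = (m : ℝ) + 1 := Real.sq_sqrt (by linarith)
  have hr1 : 1 ≤ r := by
    rw [hr, Real.one_le_sqrt]
    linarith
  have hC0 : (0 : ℝ) ≤ C := Nat.cast_nonneg C
  have hrC : r * C ≤ 2 ^ (m + 1) := by
    have e1 : (r * C) ^ 2 ≤ ((2 : ℝ) ^ (m + 1)) ^ 2 := by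
      rw [mul_pow, hr2]
      calc ((m : ℝ) + 1) * (C : ℝ) ^ 2 ≤ 4 ^ (m + 1) := h2'
        _ = ((2 : ℝ) ^ (m + 1)) ^ 2 := by rw [← pow_mul, mul_comm, pow_mul]; norm_num
    exact le_of_sq_le_sq e1 (by positivity)
  have hp : (0 : ℝ) < 2 ^ m := by positivity
  have e2 : ((m : ℝ) + 1) * C ≤ 2 * r * 2 ^ m := by
    rw [← hr2]
    have : r ^ 2 * C = r * (r * C) := by ring
    rw [this]
    calc r * (r * C) ≤ r * 2 ^ (m + 1) := mul_le_mul_of_nonneg_left hrC (by linarith)
      _ = 2 * r * 2 ^ m := by ring
  have e3 : (1 / 3 + 7 / r) * (((m : ℝ) + 1) * 2 ^ m) = (((m : ℝ) + 1) / 3 + 7 * r) * 2 ^ m := by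
    rw [← hr2]
    field_simp
  rw [e3]
  have e4 : 18 * (2 : ℝ) ^ m ≤ 18 * r * 2 ^ m := by nlinarith
  nlinarith

end Pool.Agent.Results.MP_b9b223_co.CountingRules
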